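import Pool.Agent.helper41.EN.Mod

set_option autoImplicit false

/-!
# 4-unipotent modules of prime characteristic over finitely generated soluble-by-finite groups
-/

namespace Pool.Agent.helper57.U

open Pool.Agent.helper41.EN (u RG Kill annSub mem_annSub kill_ext kill_mono)

/-! ### finitely generated soluble-by-finite torsion groups are finite -/

theorem isOfFinOrder_sub {Q : Type} [Group Q] {S : Subgroup Q} (x : S)
    (h : IsOfFinOrder (x : Q)) : IsOfFinOrder x := by
  rw [isOfFinOrder_iff_pow_eq_one] at h ⊢
  obtain ⟨n, hn, h⟩ := h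
  exact ⟨n, hn, Subtype.ext h⟩

theorem finite_of_solvable (Q : Type) [Group Q] [Group.FG Q] (hS : Group.IsSolvable Q)
    (ht : ∀ x : Q, IsOfFinOrder x) : Finite Q := by
  have key : ∀ k, (derivedSeries Q k).index ≠ 0 := by
    intro k
    induction k with
    | zero => simp
    | succ k ih =>
      have : (derivedSeries Q k).FiniteIndex := ⟨ih⟩
      have : Group.FG (derivedSeries Q k) := inferInstance
      rw [derivedSeries_succ, ← Subgroup.map_subtype_commutator, Subgroup.index_map_subtype]
      refine mul_ne_zero ?_ ih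
      have : Group.FG (Abelianization (derivedSeries Q k)) :=
        Group.fg_of_surjective (G := derivedSeries Q k)
          (f := QuotientGroup.mk' (commutator (derivedSeries Q k)))
          (QuotientGroup.mk'_surjective _)
      have : Finite (Abelianization (derivedSeries Q k)) := by
        refine CommGroup.finite_of_fg_isMulTorsion (G := Abelianization (derivedSeries Q k)) ?_
        intro y
        obtain ⟨x, rfl⟩ := QuotientGroup.mk_surjective y
        have h1 : IsOfFinOrder x := isOfFinOrder_sub x (ht x)
        exact MonoidHom.isOfFinOrder (QuotientGroup.mk' (commutator (derivedSeries Q k))) h1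
      have h2 : Finite ((derivedSeries Q k) ⧸ commutator (derivedSeries Q k)) := this
      rw [Subgroup.index_eq_card]
      exact Nat.card_pos.ne'
  obtain ⟨n, hn⟩ := hS.solvable
  have h1 := key n
  rw [hn, Subgroup.index_bot] at h1
  exact (Nat.card_ne_zero.mp h1).2

theorem finite_of_sbf (Q : Type) [Group Q] [Group.FG Q]
    (hQ : ∃ S : Subgroup Q, S.Normal ∧ Group.IsSolvable S ∧ S.index ≠ 0)
    (ht : ∀ x : Q, IsOfFinOrder x) : Finite Q := by
  obtain ⟨S, _, hS, hi⟩ := hQ
  have : S.FiniteIndex := ⟨hi⟩
  have : Finite S := finite_of_solvable S hS (fun x => isOfFinOrder_sub x (ht x))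
  have h1 := S.card_mul_index
  have h2 : Nat.card Q ≠ 0 := by
    rw [← h1]
    exact mul_ne_zero Nat.card_pos.ne' hi
  exact (Nat.card_ne_zero.mp h2).2

/-! ### the operators -/

variable {G : Type} [Group G]

/-- the elements fixing a vector -/
def stab {V : Type} [AddCommGroup V] [Module (RG G) V] (w : V) : Subgroup G where
  carrier := {x | u x • w = w}
  one_mem' := by
    show u 1 • w = w
    rw [map_one, one_smul]
  mul_mem' := by
    intro x y hx hy
    show u (x * y) • w = w
    have hx : u x • w = w := hx
    have hy : u y • w = w := hy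
    rw [map_mul, mul_smul, hy, hx]
  inv_mem' := by
    intro x hx
    show u x⁻¹ • w = w
    have hx : u x • w = w := hx
    nth_rewrite 1 [← hx]
    rw [← mul_smul, ← map_mul, inv_mul_cancel, map_one, one_smul]

theorem mem_stab {V : Type} [AddCommGroup V] [Module (RG G) V] (w : V) (x : G) :
    x ∈ stab w ↔ u x • w = w := Iff.rfl

/-- the kernel of the action -/
def ker (V : Type) [AddCommGroup V] [Module (RG G) V] : Subgroup G := ⨅ w : V, stab w

theorem mem_ker (V : Type) [AddCommGroup V] [Module (RG G) V] (x : G) :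
    x ∈ ker V ↔ ∀ w : V, u x • w = w := by
  simp only [ker, Subgroup.mem_iInf, mem_stab]

instance ker_normal (V : Type) [AddCommGroup V] [Module (RG G) V] : (ker (G := G) V).Normal := by
  constructor
  intro x hx g
  rw [mem_ker] at hx ⊢
  intro w
  rw [map_mul, map_mul, mul_smul, mul_smul, hx, ← mul_smul, ← map_mul, mul_inv_cancel, map_one,
    one_smul]

theorem pow_mem_ker (V : Type) [AddCommGroup V] [Module (RG G) V]
    (h4 : ∀ (x : G) (w : V), (u x - 1) ^ 4 • w = 0) (p : ℕ) (hp : p.Prime)
    (hV : ∀ w : V, p • w = 0) (x : G) : x ^ p ^ 2 ∈ ker V := by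
  rw [mem_ker]
  intro w
  obtain ⟨r, hr⟩ := (Commute.one_right (u x - 1 : RG G)).exists_add_pow_prime_pow_eq hp 2
  have hp4 : 4 ≤ p ^ 2 := by nlinarith [hp.two_le]
  obtain ⟨m, hm⟩ : ∃ m, p ^ 2 = m + 4 := ⟨p ^ 2 - 4, by omega⟩
  rw [sub_add_cancel, one_pow] at hr
  rw [map_pow, hr, add_smul, add_smul, one_smul]
  have e1 : (u x - 1 : RG G) ^ p ^ 2 • w = 0 := by
    rw [hm, pow_add, mul_smul, h4, smul_zero]
  have e2 : ((p : RG G) * (u x - 1) * 1 * r) • w = 0 := by
    rw [mul_assoc, mul_assoc, mul_smul, Nat.cast_smul_eq_nsmul]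
    exact hV _
  rw [e1, e2, zero_add, add_zero]

/-! ### finite `p`-groups of operators -/

theorem kill_index (p : ℕ) (hp : p.Prime) (N : ℕ) : ∀ (C : Subgroup G), C.Normal → C.index ≤ N →
    C.index ≠ 0 → (∀ x : G, x ^ p ^ 2 ∈ C) → ∀ (V : Type) [AddCommGroup V] [Module (RG G) V],
    (∀ (x : G) (w : V), (u x - 1) ^ 4 • w = 0) → (∀ x ∈ C, ∀ w : V, u x • w = w) →
    ∃ c, Kill V (⊤ : Subgroup G) c := by
  induction N with
  | zero =>
    intro C _ h1 h2
    exact absurd (Nat.le_zero.mp h1) h2
  | succ N ih =>
    intro C hC h1 h2 hpw V _ _ h4 hCV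
    by_cases hT : C = ⊤
    · refine ⟨1, ?_⟩
      intro l hl _ w
      obtain ⟨z, rfl⟩ := List.length_eq_one_iff.mp hl
      simp only [List.map_cons, List.map_nil, List.prod_cons, List.prod_nil, mul_one]
      rw [sub_smul, one_smul, hCV z (by rw [hT]; trivial), sub_self]
    -- a central element of the quotient
    have : C.FiniteIndex := ⟨h2⟩
    have : Nontrivial (G ⧸ C) := by
      rw [QuotientGroup.nontrivial_iff]
      exact hT
    have : Fact p.Prime := ⟨hp⟩
    have hPG : IsPGroup p (G ⧸ C) := by
      intro y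
      obtain ⟨x, rfl⟩ := QuotientGroup.mk_surjective y
      refine ⟨2, ?_⟩
      rw [← QuotientGroup.mk_pow, QuotientGroup.eq_one_iff]
      exact hpw x
    have := hPG.center_nontrivial
    obtain ⟨⟨y, hy⟩, hy1⟩ := exists_ne (1 : Subgroup.center (G ⧸ C))
    obtain ⟨z, rfl⟩ := QuotientGroup.mk_surjective y
    have hz : z ∉ C := by
      intro hz
      apply hy1
      ext
      exact (QuotientGroup.eq_one_iff z).mpr hz
    obtain ⟨D, hD⟩ : ∃ D : Subgroup G, D = C ⊔ Subgroup.zpowers z := ⟨_, rfl⟩
    have hzD : z ∈ D := by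
      rw [hD]
      exact Subgroup.mem_sup_right (Subgroup.mem_zpowers z)
    have hCD : C ≤ D := by
      rw [hD]
      exact le_sup_left
    have hDn : D.Normal := by
      have h3 : D = (Subgroup.zpowers (z : G ⧸ C)).comap (QuotientGroup.mk' C) := by
        have h4 : Subgroup.zpowers (z : G ⧸ C) = (Subgroup.zpowers z).map (QuotientGroup.mk' C) := by
          rw [MonoidHom.map_zpowers]
          rfl
        rw [h4, Subgroup.comap_map_eq, QuotientGroup.ker_mk', hD, sup_comm]
      rw [h3]
      have : (Subgroup.zpowers (z : G ⧸ C)).Normal := by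
        constructor
        intro a ha g
        have h5 : a ∈ Subgroup.center (G ⧸ C) := (Subgroup.zpowers_le.mpr hy) ha
        rw [Subgroup.mem_center_iff] at h5
        rw [h5 g, mul_inv_cancel_right]
        exact ha
      infer_instance
    have hDi : D.index < C.index :=
      Subgroup.index_strictAnti (lt_of_le_of_ne hCD (fun h => hz (h ▸ hzD)))
    have hDf : D.index ≠ 0 := by
      have := Subgroup.finiteIndex_of_le hCD
      exact Subgroup.FiniteIndex.index_ne_zero
    have hDp : ∀ x : G, x ^ p ^ 2 ∈ D := fun x => hCD (hpw x)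
    -- induction on the degree of nilpotency of `z - 1`
    have sub : ∀ i : ℕ, ∀ (V : Type) [AddCommGroup V] [Module (RG G) V],
        (∀ (x : G) (w : V), (u x - 1) ^ 4 • w = 0) → (∀ x ∈ C, ∀ w : V, u x • w = w) →
        (∀ w : V, (u z - 1) ^ i • w = 0) → ∃ c, Kill V (⊤ : Subgroup G) c := by
      intro i
      induction i with
      | zero =>
        intro V _ _ _ _ hi
        refine ⟨0, ?_⟩
        intro l _ _ w
        have := hi w
        rw [pow_zero, one_smul] at this
        rw [this, smul_zero]
      | succ i ihi =>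
        intro V _ _ h4 hCV hi
        have hT : ∀ r ∈ {r : RG G | ∃ d ∈ D, r = u d - 1}, ∀ g : G,
            u g⁻¹ * r * u g ∈ {r : RG G | ∃ d ∈ D, r = u d - 1} := by
          rintro r ⟨d, hd, rfl⟩ g
          refine ⟨g⁻¹ * d * g, ?_, ?_⟩
          · have := hDn.conj_mem d hd g⁻¹
            rwa [inv_inv] at this
          · rw [mul_sub, sub_mul, mul_one, ← map_mul, ← map_mul, ← map_mul, inv_mul_cancel, map_one]
        obtain ⟨W, hW⟩ : ∃ W : Submodule (RG G) V, W = annSub _ hT := ⟨_, rfl⟩
        have hWm : ∀ w : V, w ∈ W ↔ ∀ d ∈ D, u d • w = w := by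
          intro w
          rw [hW, mem_annSub]
          constructor
          · intro h d hd
            have := h _ ⟨d, hd, rfl⟩
            rw [sub_smul, one_smul, sub_eq_zero] at this
            exact this
          · rintro h r ⟨d, hd, rfl⟩
            rw [sub_smul, one_smul, h d hd, sub_self]
        obtain ⟨c1, hc1⟩ := ih D hDn (by omega) hDf hDp W
          (fun x w => Subtype.ext (h4 x w)) (fun x hx w => Subtype.ext ((hWm w).mp w.2 x hx))
        obtain ⟨c2, hc2⟩ := ihi (V ⧸ W)
          (fun x w => by
            obtain ⟨w, rfl⟩ := Submodule.Quotient.mk_surjective W w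
            rw [← Submodule.Quotient.mk_smul, h4 x w, Submodule.Quotient.mk_zero])
          (fun x hx w => by
            obtain ⟨w, rfl⟩ := Submodule.Quotient.mk_surjective W w
            rw [← Submodule.Quotient.mk_smul, hCV x hx w])
          (fun w => by
            obtain ⟨w, rfl⟩ := Submodule.Quotient.mk_surjective W w
            rw [← Submodule.Quotient.mk_smul, Submodule.Quotient.mk_eq_zero, hWm]
            intro d hd
            have h5 : D ≤ stab ((u z - 1 : RG G) ^ i • w) := by
              rw [hD]
              refine sup_le ?_ ?_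
              · intro x hx
                exact hCV x hx _
              · rw [Subgroup.zpowers_le, mem_stab]
                have := hi w
                rw [pow_succ', mul_smul, sub_smul, one_smul, sub_eq_zero] at this
                exact this
            exact h5 hd)
        exact ⟨_, kill_ext W hc2 hc1⟩
    exact sub 4 V h4 hCV (h4 z)

/-- **MODULE EXP** -/
theorem exp_kill (G : Type) [Group G] [Group.FG G]
    (hG : ∃ S : Subgroup G, S.Normal ∧ Group.IsSolvable S ∧ S.index ≠ 0) (V : Type) [AddCommGroup V]
    [Module (RG G) V] (h4 : ∀ (x : G) (w : V), (u x - 1) ^ 4 • w = 0) (p : ℕ) (hp : p.Prime)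
    (hV : ∀ w : V, p • w = 0) : ∃ c, Kill V (⊤ : Subgroup G) c := by
  have hpw := pow_mem_ker V h4 p hp hV
  have hQ : Finite (G ⧸ ker (G := G) V) := by
    refine finite_of_sbf _ ?_ ?_
    · obtain ⟨S, hSn, hS, hi⟩ := hG
      refine ⟨S.map (QuotientGroup.mk' _), hSn.map _ (QuotientGroup.mk'_surjective _), ?_, ?_⟩
      · have : Function.Surjective ((QuotientGroup.mk' (ker (G := G) V)).subgroupMap S) :=
          MonoidHom.subgroupMap_surjective _ _
        exact Group.isSolvable_of_surjective this
      · have h1 := Subgroup.index_map_dvd S (QuotientGroup.mk'_surjective (ker (G := G) V))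
        intro h0
        rw [h0, zero_dvd_iff] at h1
        exact hi h1
    · intro y
      obtain ⟨x, rfl⟩ := QuotientGroup.mk_surjective y
      rw [isOfFinOrder_iff_pow_eq_one]
      refine ⟨p ^ 2, by have := hp.pos; positivity, ?_⟩
      rw [← QuotientGroup.mk_pow, QuotientGroup.eq_one_iff]
      exact hpw x
  refine kill_index p hp (ker (G := G) V).index (ker (G := G) V) inferInstance le_rfl ?_ hpw V h4 ?_
  · rw [Subgroup.index_eq_card]
    exact Nat.card_pos.ne'
  · intro x hx w
    exact (mem_ker V x).mp hx w

end Pool.Agent.helper57.U
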